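import Pool.Agent.U168.UQ.Stm

/-!
# Project UQ, package MM: the totally positive integers `m` with `Tr (δ m) = 1` (helper535)
-/

set_option autoImplicit false

namespace Pool.Agent.U535.UQ

open Pool.Agent.U168.UQ

/-- first coordinate of the norm to `ℚ(f)` -/
def nA {R : Type*} [CommRing R] (a b c d : R) : R := a ^ 2 + c ^ 2 - 2 * b ^ 2 - 2 * d ^ 2

/-- second coordinate of the norm to `ℚ(f)` -/
def nB {R : Type*} [CommRing R] (a b c d : R) : R := 2 * a * c + c ^ 2 - 4 * b * d - 2 * d ^ 2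

/-- the norm -/
def nN {R : Type*} [CommRing R] (a b c d : R) : R :=
  nA a b c d ^ 2 + nA a b c d * nB a b c d - nB a b c d ^ 2

lemma nN_cast (a b c d : ℤ) : nN (a : ℚ) b c d = ((nN a b c d : ℤ) : ℚ) := by
  unfold nN nA nB
  push_cast
  ring

lemma prod_em (a b c d : ℚ) : em 0 (mk a b c d) * em 1 (mk a b c d) * em 2 (mk a b c d) *
    em 3 (mk a b c d) = ((nN a b c d : ℚ) : ℝ) := by
  have h02 : em 0 (mk a b c d) * em 2 (mk a b c d) =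
      (nA (a : ℝ) b c d) + (nB (a : ℝ) b c d) * ((1 + √5) / 2) := by
    rw [em0, em2]
    unfold nA nB
    linear_combination (-((b : ℝ) + d * ((1 + √5) / 2)) ^ 2) * sq2 +
      ((c : ℝ) ^ 2 - 2 * d ^ 2) / 4 * sq5
  have h13 : em 1 (mk a b c d) * em 3 (mk a b c d) =
      (nA (a : ℝ) b c d) + (nB (a : ℝ) b c d) * ((1 - √5) / 2) := by
    rw [em1, em3]
    unfold nA nB
    linear_combination (-((b : ℝ) + d * ((1 - √5) / 2)) ^ 2) * sq2 +
      ((c : ℝ) ^ 2 - 2 * d ^ 2) / 4 * sq5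
  have h : em 0 (mk a b c d) * em 1 (mk a b c d) * em 2 (mk a b c d) * em 3 (mk a b c d) =
      (em 0 (mk a b c d) * em 2 (mk a b c d)) * (em 1 (mk a b c d) * em 3 (mk a b c d)) := by ring
  rw [h, h02, h13]
  have h3 : ((nN a b c d : ℚ) : ℝ) = nA (a : ℝ) b c d ^ 2 + nA (a : ℝ) b c d * nB (a : ℝ) b c d -
      nB (a : ℝ) b c d ^ 2 := by
    unfold nN nA nB
    push_cast
    ring
  rw [h3]
  linear_combination (-(nB (a : ℝ) b c d) ^ 2 / 4) * sq5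

lemma amgm {x0 x1 x2 x3 : ℝ} (h0 : 0 < x0) (h1 : 0 < x1) (h2 : 0 < x2) (h3 : 0 < x3)
    (h : x0 + x1 + x2 + x3 = 1) : x0 * x1 * x2 * x3 ≤ 1 / 256 := by
  have a1 : x0 * x1 ≤ ((x0 + x1) / 2) ^ 2 := by nlinarith [sq_nonneg (x0 - x1)]
  have a2 : x2 * x3 ≤ ((x2 + x3) / 2) ^ 2 := by nlinarith [sq_nonneg (x2 - x3)]
  have a3 : (x0 + x1) * (x2 + x3) ≤ 1 / 4 := by nlinarith [sq_nonneg (x0 + x1 - x2 - x3)]
  have a4 : 0 ≤ (x0 + x1) * (x2 + x3) := by positivity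
  have a5 : x0 * x1 * (x2 * x3) ≤ ((x0 + x1) / 2) ^ 2 * ((x2 + x3) / 2) ^ 2 :=
    mul_le_mul a1 a2 (by positivity) (by positivity)
  have a6 : ((x0 + x1) / 2) ^ 2 * ((x2 + x3) / 2) ^ 2 = ((x0 + x1) * (x2 + x3)) ^ 2 / 16 := by ring
  have a7 : ((x0 + x1) * (x2 + x3)) ^ 2 ≤ (1 / 4) ^ 2 := pow_le_pow_left₀ a4 a3 2
  calc x0 * x1 * x2 * x3 = x0 * x1 * (x2 * x3) := by ring
    _ ≤ ((x0 + x1) * (x2 + x3)) ^ 2 / 16 := by rw [← a6]; exact a5
    _ ≤ 1 / 256 := by linarith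

lemma δ_mul_den : δ * mk 0 (-2) 0 4 = mk 0 0 1 1 := by
  rw [← den_eq, δ, div_mul_cancel₀ _ den_ne, u0]

lemma prod_δ : em 0 δ * em 1 δ * em 2 δ * em 3 δ = 1 / 1600 := by
  have h1 := prod_em 0 (-2) 0 4
  have h2 := prod_em 0 0 1 1
  have e1 : ((nN (0 : ℚ) (-2) 0 4 : ℚ) : ℝ) = 1600 := by
    unfold nN nA nB; norm_num
  have e2 : ((nN (0 : ℚ) 0 1 1 : ℚ) : ℝ) = 1 := by
    unfold nN nA nB; norm_num
  rw [e1] at h1
  rw [e2, ← δ_mul_den] at h2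
  simp only [map_mul] at h2
  have h3 : (em 0 δ * em 1 δ * em 2 δ * em 3 δ) * (em 0 (mk 0 (-2) 0 4) * em 1 (mk 0 (-2) 0 4) *
      em 2 (mk 0 (-2) 0 4) * em 3 (mk 0 (-2) 0 4)) = 1 := by
    rw [← h2]; ring
  rw [h1] at h3
  linarith

lemma norm_bound (a b c d : ℤ) (hpos : ∀ φ : K →+* ℝ, 0 < φ (mk a b c d))
    (hL : L3 (u0 * mk a b c d) = 1) : 1 ≤ nN a b c d ∧ nN a b c d ≤ 6 := by
  have hp := prod_em a b c d
  rw [nN_cast] at hp
  have h0 := hpos (em 0)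
  have h1 := hpos (em 1)
  have h2 := hpos (em 2)
  have h3 := hpos (em 3)
  have hN : (0 : ℝ) < (((nN a b c d : ℤ) : ℚ) : ℝ) := by
    rw [← hp]; positivity
  have hN' : 0 < nN a b c d := by exact_mod_cast hN
  refine ⟨hN', ?_⟩
  have hs := sum_em (mk a b c d)
  rw [hL, Fin.sum_univ_four] at hs
  simp only [map_mul] at hs
  have hs' : em 0 δ * em 0 (mk a b c d) + em 1 δ * em 1 (mk a b c d) +
    em 2 δ * em 2 (mk a b c d) + em 3 δ * em 3 (mk a b c d) = 1 := by rw [hs]; norm_num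
  have hag := amgm (mul_pos (em_δ_pos 0) h0) (mul_pos (em_δ_pos 1) h1) (mul_pos (em_δ_pos 2) h2)
    (mul_pos (em_δ_pos 3) h3) hs'
  have he : em 0 δ * em 0 (mk a b c d) * (em 1 δ * em 1 (mk a b c d)) *
      (em 2 δ * em 2 (mk a b c d)) * (em 3 δ * em 3 (mk a b c d)) =
      (em 0 δ * em 1 δ * em 2 δ * em 3 δ) * (em 0 (mk a b c d) * em 1 (mk a b c d) *
        em 2 (mk a b c d) * em 3 (mk a b c d)) := by ring
  rw [he, prod_δ, hp] at hag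
  have hlt : (((nN a b c d : ℤ) : ℚ) : ℝ) < 7 := by linarith
  have hlt' : nN a b c d < 7 := by exact_mod_cast hlt
  omega

/-- elements of norm one are units -/
lemma unit_of_norm_one (a b c d : ℤ) (h : nN a b c d = 1) :
    ∃ v' : K, Int4 v' ∧ mk a b c d * v' = 1 := by
  have hq : nN (a : ℚ) b c d = 1 := by rw [nN_cast, h]; norm_num
  refine ⟨mk a (-b) c (-d) * mk (nA (a : ℚ) b c d + nB (a : ℚ) b c d) 0 (-nB (a : ℚ) b c d) 0, ?_, ?_⟩
  · refine Int4.mul ⟨a, -b, c, -d, by push_cast; rfl⟩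
      ⟨nA a b c d + nB a b c d, 0, -nB a b c d, 0, ?_⟩
    unfold nA nB
    push_cast
    rfl
  · rw [← mul_assoc, mk_mul, mk_mul, ← mk_one, mk_inj]
    unfold nN at hq
    refine ⟨?_, ?_, ?_, ?_⟩
    · rw [← hq]; unfold nA nB; ring
    · ring
    · unfold nA nB; ring
    · ring

lemma even_even {A B : ℤ} (h : 2 ∣ A ^ 2 + A * B - B ^ 2) : 2 ∣ A ∧ 2 ∣ B := by
  have h1 : (A ^ 2 + A * B - B ^ 2) % 2 = 0 := Int.emod_eq_zero_of_dvd h
  rcases Int.emod_two_eq_zero_or_one A with hA | hA <;>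
    rcases Int.emod_two_eq_zero_or_one B with hB | hB <;>
    simp [pow_two, Int.add_emod, Int.sub_emod, Int.mul_emod, hA, hB] at h1 <;> omega

lemma three_three {A B : ℤ} (h : 3 ∣ A ^ 2 + A * B - B ^ 2) : 3 ∣ A ∧ 3 ∣ B := by
  have h1 : (A ^ 2 + A * B - B ^ 2) % 3 = 0 := Int.emod_eq_zero_of_dvd h
  have hA3 : A % 3 = 0 ∨ A % 3 = 1 ∨ A % 3 = 2 := by omega
  have hB3 : B % 3 = 0 ∨ B % 3 = 1 ∨ B % 3 = 2 := by omega
  rcases hA3 with hA | hA | hA <;> rcases hB3 with hB | hB | hB <;>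
    simp [pow_two, Int.add_emod, Int.sub_emod, Int.mul_emod, hA, hB] at h1 <;> omega

lemma five_five {A B : ℤ} (h : 5 ∣ A ^ 2 - 2 * B ^ 2) : 5 ∣ A ∧ 5 ∣ B := by
  have h1 : (A ^ 2 - 2 * B ^ 2) % 5 = 0 := Int.emod_eq_zero_of_dvd h
  have hA3 : A % 5 = 0 ∨ A % 5 = 1 ∨ A % 5 = 2 ∨ A % 5 = 3 ∨ A % 5 = 4 := by omega
  have hB3 : B % 5 = 0 ∨ B % 5 = 1 ∨ B % 5 = 2 ∨ B % 5 = 3 ∨ B % 5 = 4 := by omega
  rcases hA3 with hA | hA | hA | hA | hA <;> rcases hB3 with hB | hB | hB | hB | hB <;>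
    simp [pow_two, Int.sub_emod, Int.mul_emod, hA, hB] at h1 <;> omega

lemma nN_eq (a b c d : ℤ) : nN a b c d =
    (a ^ 2 + 2 * b ^ 2 + a * c + 2 * b * d - c ^ 2 - 2 * d ^ 2) ^ 2 -
      2 * (2 * a * b + a * d + b * c - 2 * c * d) ^ 2 := by
  unfold nN nA nB
  ring

theorem t_MM : S_MM := by
  intro m hm hpos hL
  obtain ⟨a, b, c, d, rfl⟩ := hm
  obtain ⟨h1, h6⟩ := norm_bound a b c d hpos hL
  have hcases : nN a b c d = 1 ∨ nN a b c d = 2 ∨ nN a b c d = 3 ∨ nN a b c d = 4 ∨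
    nN a b c d = 5 ∨ nN a b c d = 6 := by omega
  have hev : 2 ∣ nN a b c d → ∃ A' B' : ℤ, nA a b c d = 2 * A' ∧ nB a b c d = 2 * B' ∧
      nN a b c d = 4 * (A' ^ 2 + A' * B' - B' ^ 2) := by
    intro h
    obtain ⟨⟨A', hA⟩, ⟨B', hB⟩⟩ := even_even h
    refine ⟨A', B', hA, hB, ?_⟩
    unfold nN
    rw [hA, hB]; ring
  rcases hcases with h | h | h | h | h | h
  · obtain ⟨v', hv', e⟩ := unit_of_norm_one a b c d h
    exact ⟨_, v', ⟨a, b, c, d, rfl⟩, hv', e, Or.inl rfl⟩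
  · obtain ⟨A', B', -, -, hN⟩ := hev (by omega)
    omega
  · obtain ⟨⟨A', hA⟩, ⟨B', hB⟩⟩ := three_three (A := nA a b c d) (B := nB a b c d)
      (by change 3 ∣ nN a b c d; omega)
    have : nN a b c d = 9 * (A' ^ 2 + A' * B' - B' ^ 2) := by
      unfold nN
      rw [hA, hB]; ring
    omega
  · obtain ⟨A', B', hA, hB, hN⟩ := hev (by omega)
    -- `a` and `c` are even
    have hc : 2 ∣ c := by
      have : 2 ∣ c ^ 2 := by
        unfold nB at hB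
        exact ⟨B' - a * c + 2 * b * d + d ^ 2, by linear_combination hB⟩
      exact Int.prime_two.dvd_of_dvd_pow this
    obtain ⟨c', rfl⟩ := hc
    have ha : 2 ∣ a := by
      have : 2 ∣ a ^ 2 := by
        unfold nA at hA
        exact ⟨A' - 2 * c' ^ 2 + b ^ 2 + d ^ 2, by linear_combination hA⟩
      exact Int.prime_two.dvd_of_dvd_pow this
    obtain ⟨a', rfl⟩ := ha
    have hv : nN b a' d c' = 1 := by
      have : nN (2 * a') b (2 * c') d = 4 * nN b a' d c' := by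
        unfold nN nA nB; ring
      omega
    obtain ⟨v', hv', e⟩ := unit_of_norm_one b a' d c' hv
    refine ⟨_, v', ⟨b, a', d, c', rfl⟩, hv', e, Or.inr ?_⟩
    rw [r, mk_mul, mk_inj]
    push_cast
    refine ⟨by ring, by ring, by ring, by ring⟩
  · rw [nN_eq] at h
    obtain ⟨⟨A', hA⟩, ⟨B', hB⟩⟩ := five_five
      (A := a ^ 2 + 2 * b ^ 2 + a * c + 2 * b * d - c ^ 2 - 2 * d ^ 2)
      (B := 2 * a * b + a * d + b * c - 2 * c * d) ⟨1, by rw [h]; norm_num⟩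
    rw [hA, hB] at h
    have : 25 * (A' ^ 2 - 2 * B' ^ 2) = 5 := by rw [← h]; ring
    omega
  · obtain ⟨A', B', -, -, hN⟩ := hev (by omega)
    omega

end Pool.Agent.U535.UQ
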